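import Mathlib

/-!
# Edge-disjoint paths between two vertices of a digraph of large minimum out-degree

A digraph may have parallel edges and has no loops. Mader asked whether every digraph in which every
out-degree is at least `r` has two vertices `x ≠ y` with `r` pairwise edge-disjoint directed paths
from `x` to `y`. For every `r ≥ 4` a digraph with six vertices shows that this fails.
-/

set_option autoImplicit false

namespace Pool.Agent.Results.MP_542d22_co.FailsFromFour

/-- A digraph with vertices `V` and edges `E`: every edge has a tail and a head, which are different;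
parallel edges are allowed. -/
structure MDigraph (V E : Type) where
  /-- the tail of an edge -/
  tail : E → V
  /-- the head of an edge -/
  head : E → V
  /-- there are no loops -/
  ne : ∀ e, tail e ≠ head e

namespace MDigraph

variable {V E : Type} (D : MDigraph V E)

/-- The out-degree of a vertex: the number of edges having it as tail. -/
noncomputable def outDegree (v : V) : ℕ := Nat.card {e : E // D.tail e = v}

/-- The list `l` of edges is a directed walk from `x` to `y`. -/
def IsWalk : V → V → List E → Prop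
  | x, y, [] => x = y
  | x, y, e :: l => D.tail e = x ∧ IsWalk (D.head e) y l

/-- The list `l` of edges is a directed path from `x` to `y`: a directed walk whose vertices are
pairwise different. -/
def IsPath (x y : V) (l : List E) : Prop := D.IsWalk x y l ∧ (x :: l.map D.head).Nodup

/-- There are `k` pairwise edge-disjoint directed paths from `x` to `y`. -/
def HasPaths (k : ℕ) (x y : V) : Prop :=
  ∃ P : Fin k → List E, (∀ i, D.IsPath x y (P i)) ∧ ∀ i j, i ≠ j → List.Disjoint (P i) (P j)

/-- `lam x y` (for `x ≠ y`) is the largest number of pairwise edge-disjoint directed paths from `x`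
to `y`. -/
noncomputable def lam (x y : V) : ℕ := sSup {k | D.HasPaths k x y}

end MDigraph

/-- Mader's first statement for a given `r`: every (nonempty, finite) digraph all of whose out-degrees
are at least `r` has two different vertices `x`, `y` with `lam x y ≥ r`. -/
def SomePair (r : ℕ) : Prop :=
  ∀ (V E : Type) [Finite V] [Finite E] [Nonempty V] (D : MDigraph V E),
    (∀ v, r ≤ D.outDegree v) → ∃ x y, x ≠ y ∧ r ≤ D.lam x y

/-- Mader's second statement for a given `r`: every (nonempty, finite) digraph all of whose out-degrees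
are at least `r` has an edge from `x` to `y` with `lam x y ≥ r`. -/
def SomeEdge (r : ℕ) : Prop :=
  ∀ (V E : Type) [Finite V] [Finite E] [Nonempty V] (D : MDigraph V E),
    (∀ v, r ≤ D.outDegree v) → ∃ e, r ≤ D.lam (D.tail e) (D.head e)

/-! ## Cuts -/

section Cut

variable {V E : Type} (D : MDigraph V E)

theorem exists_cross (X : Set V) (y : V) (hy : y ∉ X) :
    ∀ (l : List E) (x : V), x ∈ X → D.IsWalk x y l → ∃ e ∈ l, D.tail e ∈ X ∧ D.head e ∉ X := by
  intro l
  induction l with
  | nil =>
    intro x hx h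
    exact absurd (h ▸ hx) hy
  | cons e l ih =>
    intro x hx h
    obtain ⟨h1, h2⟩ := h
    by_cases hh : D.head e ∈ X
    · obtain ⟨e', he', h3⟩ := ih _ hh h2
      exact ⟨e', List.mem_cons_of_mem _ he', h3⟩
    · exact ⟨e, List.mem_cons_self, by rw [h1]; exact hx, hh⟩

theorem paths_le [Finite E] (X : Set V) (x y : V) (hx : x ∈ X) (hy : y ∉ X) (k : ℕ)
    (h : D.HasPaths k x y) : k ≤ Nat.card {e : E // D.tail e ∈ X ∧ D.head e ∉ X} := by
  obtain ⟨P, h1, h2⟩ := h
  have h3 : ∀ i, ∃ e ∈ P i, D.tail e ∈ X ∧ D.head e ∉ X := fun i =>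
    exists_cross D X y hy (P i) x hx (h1 i).1
  choose f hf hf2 using h3
  let g : Fin k → {e : E // D.tail e ∈ X ∧ D.head e ∉ X} := fun i => ⟨f i, hf2 i⟩
  have hg : Function.Injective g := by
    intro i j hij
    by_contra hne
    have h4 : f i = f j := congrArg Subtype.val hij
    exact h2 i j hne (hf i) (h4 ▸ hf j)
  have := Nat.card_le_card_of_injective g hg
  simpa using this

theorem lam_le [Finite E] (X : Set V) (x y : V) (hx : x ∈ X) (hy : y ∉ X) :
    D.lam x y ≤ Nat.card {e : E // D.tail e ∈ X ∧ D.head e ∉ X} := by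
  refine csSup_le' ?_
  intro k hk
  exact paths_le D X x y hx hy k hk

end Cut

/-! ## The example -/

/-- The number of edges between two vertices of one side: `0 → 1` has `r - 1` edges, `0 → 2` one,
`1 → 0` two, `1 → 2` has `r - 2` and `2 → 0` has one. -/
def mIn (r : ℕ) : Fin 3 → Fin 3 → ℕ
  | 0, 1 => r - 1
  | 0, 2 => 1
  | 1, 0 => 2
  | 1, 2 => r - 2
  | 2, 0 => 1
  | _, _ => 0

/-- The number of edges from `(s, i)` to `(t, j)`: inside a side as in `mIn`, and `r - 1` edges from
the vertex `2` of a side to the vertex `2` of the other. -/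
def mul (r : ℕ) (u v : Bool × Fin 3) : ℕ :=
  if u.1 = v.1 then mIn r u.2 v.2 else if u.2 = 2 ∧ v.2 = 2 then r - 1 else 0

/-- The edges of the example. -/
def Edg (r : ℕ) : Type := Σ p : (Bool × Fin 3) × (Bool × Fin 3), Fin (mul r p.1 p.2)

instance (r : ℕ) : Fintype (Edg r) := by unfold Edg; infer_instance

theorem mul_self (r : ℕ) (u : Bool × Fin 3) : mul r u u = 0 := by
  obtain ⟨s, i⟩ := u
  fin_cases i <;> simp [mul, mIn]

/-- The example. -/
def ex (r : ℕ) : MDigraph (Bool × Fin 3) (Edg r) where
  tail e := e.1.1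
  head e := e.1.2
  ne := by
    rintro ⟨⟨u, v⟩, i⟩ h
    simp only at h
    subst h
    have := i.2
    simp only [mul_self] at this
    omega

theorem card_cut (r : ℕ) (P : Bool × Fin 3 → Prop) (Q : Bool × Fin 3 → Prop) [DecidablePred P]
    [DecidablePred Q] :
    Nat.card {e : Edg r // P ((ex r).tail e) ∧ Q ((ex r).head e)} =
      ∑ u, ∑ v, if P u ∧ Q v then mul r u v else 0 := by
  classical
  rw [← Fintype.sum_prod_type' (f := fun u v => if P u ∧ Q v then mul r u v else 0)]
  have e1 : {e : Edg r // P ((ex r).tail e) ∧ Q ((ex r).head e)} ≃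
      Σ p : (Bool × Fin 3) × (Bool × Fin 3), {i : Fin (mul r p.1 p.2) // P p.1 ∧ Q p.2} :=
    { toFun := fun e => ⟨e.1.1, ⟨e.1.2, e.2⟩⟩
      invFun := fun e => ⟨⟨e.1, e.2.1⟩, e.2.2⟩
      left_inv := fun e => rfl
      right_inv := fun e => rfl }
  rw [Nat.card_congr e1, Nat.card_eq_fintype_card, Fintype.card_sigma]
  refine Finset.sum_congr rfl fun p _ => ?_
  by_cases h : P p.1 ∧ Q p.2
  · rw [if_pos h, Fintype.card_congr (Equiv.subtypeUnivEquiv (fun _ => h)), Fintype.card_fin]
  · rw [if_neg h, Fintype.card_eq_zero_iff]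
    exact ⟨fun i => h i.2⟩

theorem outDegree_ex (r : ℕ) (hr : 4 ≤ r) (v : Bool × Fin 3) : (ex r).outDegree v = r := by
  have h := card_cut r (fun u => u = v) (fun _ => True)
  simp only [and_true] at h
  unfold MDigraph.outDegree
  rw [h]
  obtain ⟨s, i⟩ := v
  cases s <;> fin_cases i <;>
    simp [Fintype.sum_prod_type, Fin.sum_univ_three, mul, mIn] <;> omega

/-- The set separating `u` from `v`. -/
def cutSet (u v : Bool × Fin 3) : Set (Bool × Fin 3) :=
  {w | if v.2 ≠ 2 then w ≠ v else if u.1 = v.1 then w.1 = u.1 ∧ w.2 ≠ 2 else w.1 = u.1}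

theorem card_cutSet (r : ℕ) (hr : 4 ≤ r) (u v : Bool × Fin 3) (huv : u ≠ v) :
    u ∈ cutSet u v ∧ v ∉ cutSet u v ∧
      Nat.card {e : Edg r // (ex r).tail e ∈ cutSet u v ∧ (ex r).head e ∉ cutSet u v} ≤ r - 1 := by
  classical
  have h := card_cut r (fun w => w ∈ cutSet u v) (fun w => w ∉ cutSet u v)
  rw [h]
  obtain ⟨s, i⟩ := u
  obtain ⟨t, j⟩ := v
  cases s <;> cases t <;> fin_cases i <;> fin_cases j <;>
    simp [Fintype.sum_prod_type, Fin.sum_univ_three, mul, mIn, cutSet] at huv ⊢ <;> omega

theorem lam_ex (r : ℕ) (hr : 4 ≤ r) (u v : Bool × Fin 3) (huv : u ≠ v) :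
    (ex r).lam u v ≤ r - 1 := by
  obtain ⟨h1, h2, h3⟩ := card_cutSet r hr u v huv
  have : Finite (Edg r) := Finite.of_fintype _
  exact (lam_le (ex r) _ u v h1 h2).trans h3

/-- For every `r ≥ 4` both statements of Mader fail: there is a digraph with six vertices, all of
whose out-degrees are equal to `r`, in which no two different vertices `x`, `y` are joined by `r`
pairwise edge-disjoint directed paths from `x` to `y`. -/
theorem result : ∀ r : ℕ, 4 ≤ r →
    (¬ SomePair r ∧ ¬ SomeEdge r) ∧
    ∃ (V E : Type) (_ : Fintype V) (_ : Fintype E) (D : MDigraph V E), Fintype.card V = 6 ∧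
      (∀ v, D.outDegree v = r) ∧
      ∀ x y, x ≠ y → D.lam x y ≤ r - 1 ∧ ∀ k, D.HasPaths k x y → k ≤ r - 1 := by
  intro r hr
  have hfin : Finite (Edg r) := Finite.of_fintype _
  refine ⟨⟨?_, ?_⟩, Bool × Fin 3, Edg r, inferInstance, inferInstance, ex r, by simp,
    outDegree_ex r hr, ?_⟩
  · intro h
    obtain ⟨x, y, hxy, h1⟩ := h (Bool × Fin 3) (Edg r) (ex r) (fun v => (outDegree_ex r hr v).ge)
    have := lam_ex r hr x y hxy
    omega
  · intro h
    obtain ⟨e, h1⟩ := h (Bool × Fin 3) (Edg r) (ex r) (fun v => (outDegree_ex r hr v).ge)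
    have := lam_ex r hr _ _ ((ex r).ne e)
    omega
  · intro x y hxy
    obtain ⟨h1, h2, h3⟩ := card_cutSet r hr x y hxy
    exact ⟨lam_ex r hr x y hxy, fun k hk => (paths_le (ex r) _ x y h1 h2 k hk).trans h3⟩

end Pool.Agent.Results.MP_542d22_co.FailsFromFour
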